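import Pool.Agent.Y217.PB.StmB
import Pool.Agent.Helper775.Surf.Tig

/-! Job PB-X (project PB of helper217): the first Betti number by Alexander-Spanier cohomology is
the one by singular homology. -/

set_option autoImplicit false

universe u

namespace Pool.Agent.Y447.PB

open Set Topology
open Pool.Agent.Helper775.Surf Pool.Agent.Helper775.Clo Pool.Agent.Helper775.Tight
open Pool.Agent.Y217.PB

section general

variable {M : Type u} [TopologicalSpace M]

/-! ### list cochains of functions of two variables -/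

/-- the list cochain of a function of two variables -/
def ct (t : M → M → ZMod 2) : Ch M := fun l => match l with
    | [a, b] => t a b
    | _ => 0

/-- the list cochain of a function of one variable -/
def cs (s : M → ZMod 2) : Ch M := fun l => match l with
    | [a] => s a
    | _ => 0

theorem dd3 (k : Ch M) (a b e : M) :
    dd k [a, b, e] = k [b, e] + (k [a, e] + (k [a, b] + 0)) := by
  rw [dd_apply (by simp)]
  rfl

theorem dd2 (k : Ch M) (a b : M) : dd k [a, b] = k [b] + (k [a] + 0) := by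
  rw [dd_apply (by simp)]
  rfl

theorem theta_one (c : Ch M) (σ : Sing M 1) :
    theta c 1 σ = c [σ (stdSimplex.vertex 0), σ (stdSimplex.vertex 1)] := by
  simp [theta]

theorem theta_two (c : Ch M) (σ : Sing M 2) :
    theta c 2 σ = c [σ (stdSimplex.vertex 0), σ (stdSimplex.vertex 1),
      σ (stdSimplex.vertex 2)] := by
  unfold theta
  simp only [List.ofFn_succ, List.ofFn_zero]
  rfl

/-- evaluation of a function of two variables on 1-chains -/
noncomputable def TT (t : M → M → ZMod 2) : (Sing M 1 →₀ ZMod 2) →ₗ[ZMod 2] ZMod 2 :=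
  Finsupp.linearCombination (ZMod 2) (fun σ => t (σ (stdSimplex.vertex 0)) (σ (stdSimplex.vertex 1)))

theorem TT_single (t : M → M → ZMod 2) (σ : Sing M 1) :
    TT t (Finsupp.single σ 1) = t (σ (stdSimplex.vertex 0)) (σ (stdSimplex.vertex 1)) := by
  simp [TT]

theorem TT_theta (t : M → M → ZMod 2) (σ : Sing M 1) :
    TT t (Finsupp.single σ 1) = theta (ct t) 1 σ := by
  rw [TT_single, theta_one]
  rfl

theorem lin_eq {ι : Type*} (f g : (ι →₀ ZMod 2) →ₗ[ZMod 2] ZMod 2) (z : ι →₀ ZMod 2)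
    (h : ∀ σ ∈ z.support, f (Finsupp.single σ 1) = g (Finsupp.single σ 1)) : f z = g z := by
  have hz : z = ∑ σ ∈ z.support, z σ • Finsupp.single σ (1 : ZMod 2) := by
    conv_lhs => rw [← Finsupp.sum_single z, Finsupp.sum]
    refine Finset.sum_congr rfl fun σ _ => ?_
    rw [Finsupp.smul_single, smul_eq_mul, mul_one]
  rw [hz, map_sum, map_sum]
  refine Finset.sum_congr rfl fun σ hσ => ?_
  rw [map_smul, map_smul, h σ hσ]

theorem lc_sdf (s : SCh M) (n : ℕ) (z : Sing M (n + 1) →₀ ZMod 2) :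
    Finsupp.linearCombination (ZMod 2) (sdf s (n + 1)) z =
      Finsupp.linearCombination (ZMod 2) (s n) (bdry M n z) := by
  have h := lin_eq (Finsupp.linearCombination (ZMod 2) (sdf s (n + 1)))
    ((Finsupp.linearCombination (ZMod 2) (s n)).comp (bdry M n)) z (by
      intro σ _
      rw [LinearMap.comp_apply, sx_bdry_single, map_sum, Finsupp.linearCombination_single,
        one_smul]
      change ∑ i : Fin (n + 2), s n (sface n i σ) = _
      refine Finset.sum_congr rfl fun i _ => ?_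
      rw [Finsupp.linearCombination_single, one_smul])
  exact h

/-! ### covers and small chains -/

/-- open covers -/
structure Cov (OO : Set (Set M)) : Prop where
  op : ∀ W ∈ OO, IsOpen W
  cov : ∀ x, ∃ W ∈ OO, x ∈ W

/-- small chains -/
def Sm (OO : Set (Set M)) {n : ℕ} (z : Sing M n →₀ ZMod 2) : Prop :=
  ∀ σ ∈ z.support, ∃ W ∈ OO, range σ ⊆ W

/-- the first homology group, as in `firstBetti` -/
noncomputable abbrev HH (M : Type u) [TopologicalSpace M] :
    Submodule (ZMod 2) ((Sing M 1 →₀ ZMod 2) ⧸ LinearMap.range (bdry M 1)) :=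
  (LinearMap.ker (bdry M 0)).map (LinearMap.range (bdry M 1)).mkQ

/-- the class of a cycle -/
noncomputable def hcl (z : LinearMap.ker (bdry M 0)) : HH M :=
  ⟨(LinearMap.range (bdry M 1)).mkQ z.1, Submodule.mem_map_of_mem z.2⟩

theorem hcl_surj (h : HH M) : ∃ z, hcl z = h := by
  obtain ⟨x, z, hz, rfl⟩ := h
  exact ⟨⟨z, hz⟩, rfl⟩

/-- every cycle is homologous to a small one -/
theorem exists_small (OO : Set (Set M)) (h : Cov OO) (z : LinearMap.ker (bdry M 0)) :
    ∃ z' : LinearMap.ker (bdry M 0), Sm OO z'.1 ∧ hcl z' = hcl z := by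
  have hopen' : ∀ D ∈ sbCov OO (univ : Set M), IsOpen D := by
    rintro D ⟨C, hC, rfl⟩
    exact (h.op C hC).preimage continuous_subtype_val
  have hcov' : ∀ x : (univ : Set M), ∃ D ∈ sbCov OO (univ : Set M), x ∈ D := by
    intro x
    obtain ⟨C, hC, hx⟩ := h.cov x
    exact ⟨_, ⟨C, hC, rfl⟩, hx⟩
  obtain ⟨c, hc⟩ := sb_lift (univ : Set M) 1 z.1 (fun σ _ => subset_univ _)
  have hz0 : bdry M 0 z.1 = 0 := z.2
  have hcyc : bdry M 0 (sbPhi univ 1 (Sc.rho (sbCov OO univ) 1 c)) = 0 := by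
    rw [sbPhi_bdry, Sc.sbd_rho]
    have e : Sc.rho (sbCov OO (univ : Set M)) 0 (Sc.sbd _ 0 c) = Sc.sbd _ 0 c := rfl
    rw [e, ← sbPhi_bdry, hc, hz0]
  refine ⟨⟨sbPhi univ 1 (Sc.rho (sbCov OO univ) 1 c), hcyc⟩, ?_, ?_⟩
  · intro σ hσ
    exact (sbPhi_small OO univ 1 _ (Sc.rho_small _ hopen' hcov' _ _) σ hσ).2
  · apply Subtype.ext
    change (LinearMap.range (bdry M 1)).mkQ (sbPhi univ 1 (Sc.rho (sbCov OO univ) 1 c)) =
      (LinearMap.range (bdry M 1)).mkQ z.1
    rw [Submodule.mkQ_apply, Submodule.mkQ_apply, Submodule.Quotient.eq]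
    refine ⟨-(sbPhi univ 2 (Sc.DD (sbCov OO univ) 1 c)), ?_⟩
    have e1 : Sc.rho (sbCov OO (univ : Set M)) 1 c =
        c - Sc.sbd _ 1 (Sc.DD (sbCov OO univ) 1 c) - Sc.DD (sbCov OO univ) 0 (Sc.sbd _ 0 c) := rfl
    rw [e1, Sc.DD_zero, sub_zero, map_sub, hc, ← sbPhi_bdry, map_neg]
    abel

/-- the relation -/
def RR (t : M → M → ZMod 2) (φ : Module.Dual (ZMod 2) (HH M)) : Prop :=
  ∃ OO : Set (Set M), Cov OO ∧ ∀ z : LinearMap.ker (bdry M 0), Sm OO z.1 → φ (hcl z) = TT t z.1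

theorem TT_add (t t' : M → M → ZMod 2) (z : Sing M 1 →₀ ZMod 2) :
    TT (t + t') z = TT t z + TT t' z := by
  have := lin_eq (TT (t + t')) (TT t + TT t') z (by
    intro σ _
    rw [LinearMap.add_apply, TT_single, TT_single, TT_single]
    rfl)
  exact this

theorem TT_zero (z : Sing M 1 →₀ ZMod 2) : TT (0 : M → M → ZMod 2) z = 0 := by
  have := lin_eq (TT (0 : M → M → ZMod 2)) 0 z (by
    intro σ _
    rw [TT_single]
    rfl)
  exact this

/-- the relation as a submodule -/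
def RP (M : Type u) [TopologicalSpace M] :
    Submodule (ZMod 2) ((M → M → ZMod 2) × Module.Dual (ZMod 2) (HH M)) where
  carrier := {p | RR p.1 p.2}
  add_mem' := by
    rintro ⟨t, φ⟩ ⟨t', φ'⟩ ⟨OO, hO, h⟩ ⟨OO', hO', h'⟩
    refine ⟨{W | ∃ U ∈ OO, ∃ U' ∈ OO', W = U ∩ U'}, ⟨?_, ?_⟩, ?_⟩
    · rintro W ⟨U, hU, U', hU', rfl⟩
      exact (hO.op U hU).inter (hO'.op U' hU')
    · intro x
      obtain ⟨U, hU, hx⟩ := hO.cov x
      obtain ⟨U', hU', hx'⟩ := hO'.cov x
      exact ⟨_, ⟨U, hU, U', hU', rfl⟩, hx, hx'⟩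
    · intro z hz
      have h1 : Sm OO z.1 := by
        intro σ hσ
        obtain ⟨W, ⟨U, hU, U', hU', rfl⟩, hr⟩ := hz σ hσ
        exact ⟨U, hU, hr.trans inter_subset_left⟩
      have h2 : Sm OO' z.1 := by
        intro σ hσ
        obtain ⟨W, ⟨U, hU, U', hU', rfl⟩, hr⟩ := hz σ hσ
        exact ⟨U', hU', hr.trans inter_subset_right⟩
      change (φ + φ') (hcl z) = TT (t + t') z.1
      rw [LinearMap.add_apply, TT_add, h z h1, h' z h2]
  zero_mem' := by
    refine ⟨{univ}, ⟨?_, ?_⟩, ?_⟩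
    · rintro W rfl
      exact isOpen_univ
    · exact fun x => ⟨univ, rfl, mem_univ _⟩
    · intro z _
      change (0 : Module.Dual (ZMod 2) (HH M)) (hcl z) = TT (0 : M → M → ZMod 2) z.1
      rw [TT_zero]
      rfl
  smul_mem' := by
    rintro c ⟨t, φ⟩ ⟨OO, hO, h⟩
    have hc : ∀ c : ZMod 2, c = 0 ∨ c = 1 := by decide
    rcases hc c with rfl | rfl
    · rw [zero_smul]
      refine ⟨{univ}, ⟨?_, ?_⟩, ?_⟩
      · rintro W rfl
        exact isOpen_univ
      · exact fun x => ⟨univ, rfl, mem_univ _⟩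
      · intro z _
        change (0 : Module.Dual (ZMod 2) (HH M)) (hcl z) = TT (0 : M → M → ZMod 2) z.1
        rw [TT_zero]
        rfl
    · rw [one_smul]
      exact ⟨OO, hO, h⟩

/-- an open cover from a local property -/
theorem cov_of {p : Set M → Prop} (hmono : ∀ U V : Set M, U ⊆ V → p V → p U)
    (h : ∀ x, ∃ W ∈ 𝓝 x, p W) : Cov {W : Set M | IsOpen W ∧ p W} := by
  refine ⟨fun W hW => hW.1, fun x => ?_⟩
  obtain ⟨W, hW, hp⟩ := h x
  obtain ⟨U, hUW, hU, hx⟩ := mem_nhds_iff.1 hW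
  exact ⟨U, ⟨hU, hmono U W hUW hp⟩, hx⟩

/-- step 1: cocycles give functionals -/
theorem step1 (t : M → M → ZMod 2) (ht : Coc univ t) :
    ∃ φ : Module.Dual (ZMod 2) (HH M), RR t φ := by
  set OO : Set (Set M) := {W : Set M | IsOpen W ∧
    ∀ a ∈ W, ∀ b ∈ W, ∀ c ∈ W, t a b + t b c = t a c} with hOO
  have hcov : Cov OO := cov_of (p := fun W => ∀ a ∈ W, ∀ b ∈ W, ∀ c ∈ W, t a b + t b c = t a c)
    (fun U V hUV h a ha b hb c hc => h a (hUV ha) b (hUV hb) c (hUV hc))
    (fun x => ht x (mem_univ x))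
  have claim : ∀ z ∈ Finsupp.supported (ZMod 2) (ZMod 2) {σ : Sing M 1 | ∃ W ∈ OO, range σ ⊆ W},
      (LinearMap.range (bdry M 1)).mkQ z = 0 → TT t z = 0 := by
    intro z hz hz0
    rw [Submodule.mkQ_apply, Submodule.Quotient.mk_eq_zero] at hz0
    obtain ⟨b, hb⟩ := hz0
    have hzs : ∀ σ ∈ z.support, range σ ⊆ univ ∧ ∃ C ∈ OO, range σ ⊆ C := by
      intro σ hσ
      exact ⟨subset_univ _, (Finsupp.mem_supported _ _).1 hz (by exact_mod_cast hσ)⟩
    obtain ⟨b', hb', hbz'⟩ := small_bound OO univ hcov.op (fun x _ => hcov.cov x) 1 z hzs b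
      (fun σ _ => subset_univ _) hb
    rw [← hbz']
    apply sx_bdry_zero
    intro σ hσ
    obtain ⟨-, W, hW, hσW⟩ := hb' σ hσ
    have h1 : ∑ i : Fin (1 + 2), TT t (Finsupp.single (sface 1 i σ) 1) =
        sdf (theta (ct t)) 2 σ := by
      change _ = ∑ i : Fin (1 + 2), theta (ct t) 1 (sface 1 i σ)
      exact Finset.sum_congr rfl fun i _ => TT_theta t _
    rw [h1, sdf_theta, theta_two, dd3]
    have h2 := hW.2 _ (hσW ⟨stdSimplex.vertex 0, rfl⟩) _ (hσW ⟨stdSimplex.vertex 1, rfl⟩) _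
      (hσW ⟨stdSimplex.vertex 2, rfl⟩)
    change t (σ (stdSimplex.vertex 1)) (σ (stdSimplex.vertex 2)) +
      (t (σ (stdSimplex.vertex 0)) (σ (stdSimplex.vertex 2)) +
        (t (σ (stdSimplex.vertex 0)) (σ (stdSimplex.vertex 1)) + 0)) = 0
    rw [← h2]
    generalize t (σ (stdSimplex.vertex 0)) (σ (stdSimplex.vertex 1)) = u
    generalize t (σ (stdSimplex.vertex 1)) (σ (stdSimplex.vertex 2)) = v
    revert u v
    decide
  obtain ⟨ψ, hψ⟩ := sx_factor2 _ (LinearMap.range (bdry M 1)).mkQ (TT t) claim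
  refine ⟨ψ ∘ₗ (HH M).subtype, OO, hcov, fun z hz => ?_⟩
  have hzs : z.1 ∈ Finsupp.supported (ZMod 2) (ZMod 2)
      {σ : Sing M 1 | ∃ W ∈ OO, range σ ⊆ W} := by
    rw [Finsupp.mem_supported]
    intro σ hσ
    exact hz σ (by exact_mod_cast hσ)
  exact hψ z.1 hzs

/-- a functional which vanishes on small cycles is zero -/
theorem dual_zero (OO : Set (Set M)) (h : Cov OO) (φ : Module.Dual (ZMod 2) (HH M))
    (hφ : ∀ z : LinearMap.ker (bdry M 0), Sm OO z.1 → φ (hcl z) = 0) : φ = 0 := by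
  apply LinearMap.ext
  intro x
  obtain ⟨z, rfl⟩ := hcl_surj x
  obtain ⟨z', hz', he⟩ := exists_small OO h z
  rw [← he, hφ z' hz']
  rfl

/-- step 3, first half: coboundaries give zero -/
theorem step3a (t : M → M → ZMod 2) (φ : Module.Dual (ZMod 2) (HH M)) (hR : RR t φ)
    (ht : Null univ t) : φ = 0 := by
  obtain ⟨OO, hO, h⟩ := hR
  obtain ⟨s, hs⟩ := ht
  set OO' : Set (Set M) := {W : Set M | IsOpen W ∧
    ((∃ U ∈ OO, W ⊆ U) ∧ ∀ a ∈ W, ∀ b ∈ W, t a b = s a + s b)} with hOO'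
  have hcov : Cov OO' := cov_of
    (p := fun W => (∃ U ∈ OO, W ⊆ U) ∧ ∀ a ∈ W, ∀ b ∈ W, t a b = s a + s b)
    (fun U V hUV h => ⟨⟨_, h.1.choose_spec.1, hUV.trans h.1.choose_spec.2⟩,
      fun a ha b hb => h.2 a (hUV ha) b (hUV hb)⟩)
    (fun x => by
      obtain ⟨W, hW, h1⟩ := hs x (mem_univ x)
      obtain ⟨U, hU, hx⟩ := hO.cov x
      exact ⟨W ∩ U, Filter.inter_mem hW ((hO.op U hU).mem_nhds hx),
        ⟨U, hU, inter_subset_right⟩, fun a ha b hb => h1 a ha.1 b hb.1⟩)
  apply dual_zero OO' hcov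
  intro z hz
  have h1 : Sm OO z.1 := by
    intro σ hσ
    obtain ⟨W, hW, hr⟩ := hz σ hσ
    obtain ⟨U, hU, hWU⟩ := hW.2.1
    exact ⟨U, hU, hr.trans hWU⟩
  rw [h z h1]
  have h2 : TT t z.1 = Finsupp.linearCombination (ZMod 2) (sdf (theta (cs s)) 1) z.1 := by
    apply lin_eq
    intro σ hσ
    obtain ⟨W, hW, hr⟩ := hz σ hσ
    rw [TT_single, Finsupp.linearCombination_single, one_smul, sdf_theta, theta_one, dd2,
      hW.2.2 _ (hr ⟨stdSimplex.vertex 0, rfl⟩) _ (hr ⟨stdSimplex.vertex 1, rfl⟩), add_zero,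
      add_comm]
    rfl
  rw [h2, lc_sdf]
  have h3 : bdry M 0 z.1 = 0 := z.2
  rw [h3, map_zero]

end general

section algebra

theorem finrank_corr {X Y : Type*} [AddCommGroup X] [Module (ZMod 2) X] [AddCommGroup Y]
    [Module (ZMod 2) Y] (ZX BX : Submodule (ZMod 2) X) (P : Submodule (ZMod 2) (X × Y))
    (h1 : ∀ x ∈ ZX, ∃ y, (x, y) ∈ P) (h2 : ∀ y, ∃ x ∈ ZX, (x, y) ∈ P)
    (h3 : ∀ x ∈ ZX, ∀ y, (x, y) ∈ P → (x ∈ BX ↔ y = 0)) :
    Module.finrank (ZMod 2) (ZX ⧸ BX.comap ZX.subtype) = Module.finrank (ZMod 2) Y := by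
  obtain ⟨e⟩ := Sc.corr ZX BX (⊤ : Submodule (ZMod 2) Y) ⊥ P
    (fun x hx => by
      obtain ⟨y, hy⟩ := h1 x hx
      exact ⟨y, trivial, hy⟩)
    (fun y _ => h2 y)
    (fun x hx y _ hp => by
      rw [Submodule.mem_bot]
      exact h3 x hx y hp)
  have h4 : Submodule.comap (⊤ : Submodule (ZMod 2) Y).subtype ⊥ = ⊥ := by
    rw [Submodule.comap_bot, Submodule.ker_subtype]
  rw [e.finrank_eq]
  exact ((Submodule.quotEquivOfEqBot _ h4).trans Submodule.topEquiv).finrank_eq

end algebra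

section metric

variable {M : Type u} [MetricSpace M] [CompactSpace M] [ChartedSpace (EuclideanSpace ℝ (Fin 2)) M]

/-- step 2: functionals give cocycles -/
theorem step2 (φ : Module.Dual (ZMod 2) (HH M)) : ∃ t : M → M → ZMod 2, Coc univ t ∧ RR t φ := by
  obtain ⟨ψ, hψ⟩ := LinearMap.exists_extend φ
  set Φ : (Sing M 1 →₀ ZMod 2) →ₗ[ZMod 2] ZMod 2 := ψ ∘ₗ (LinearMap.range (bdry M 1)).mkQ with hΦ
  have hΦ0 : ∀ b, Φ (bdry M 1 b) = 0 := by
    intro b
    rw [hΦ, LinearMap.comp_apply, Submodule.mkQ_apply,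
      (Submodule.Quotient.mk_eq_zero _).2 (LinearMap.mem_range_self _ b), map_zero]
  set s : SCh M := Function.update 0 1 (fun σ => Φ (Finsupp.single σ 1)) with hs
  have hs1 : ∀ σ, s 1 σ = Φ (Finsupp.single σ 1) := by
    intro σ; rw [hs, Function.update_self]
  have hcoc : (Sg M).Coc univ 2 s := by
    intro z _
    refine ⟨univ, Filter.univ_mem, fun σ _ => ?_⟩
    change ∑ i : Fin (1 + 2), s 1 (sface 1 i σ) = 0
    have h2 := hΦ0 (Finsupp.single σ 1)
    rw [sx_bdry_single, map_sum] at h2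
    simp only [hs1]
    exact h2
  obtain ⟨c, hc, k', hk'⟩ := theta_surj (m := 2) isCompact_univ hcoc
  refine ⟨fun a b => c [a, b], ?_, ?_⟩
  · intro x hx
    have h3 : dd c ∈ Nz x 3 := hc x hx
    obtain ⟨W, hW, hxW, h4⟩ := exists_of_mem_Nz (by norm_num) h3
    refine ⟨W, hW.mem_nhds hxW, fun a ha b hb e he => ?_⟩
    have h5 := h4 [a, b, e] rfl (by
      intro y hy
      simp only [List.mem_cons, List.not_mem_nil, or_false] at hy
      rcases hy with rfl | rfl | rfl
      · exact ha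
      · exact hb
      · exact he)
    rw [dd3] at h5
    change c [a, b] + c [b, e] = c [a, e]
    revert h5
    generalize c [a, b] = u
    generalize c [b, e] = v
    generalize c [a, e] = w
    revert u v w
    decide
  · set OO : Set (Set M) := {W : Set M | IsOpen W ∧ ∀ σ : Sing M 1, range σ ⊆ W →
      Φ (Finsupp.single σ 1) = TT (fun a b => c [a, b]) (Finsupp.single σ 1) + sdf k' 1 σ} with hOO
    have hcov : Cov OO := cov_of (p := fun W => ∀ σ : Sing M 1, range σ ⊆ W →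
        Φ (Finsupp.single σ 1) = TT (fun a b => c [a, b]) (Finsupp.single σ 1) + sdf k' 1 σ)
      (fun U V hUV h σ hσ => h σ (hσ.trans hUV))
      (fun x => by
        obtain ⟨W, hW, h1⟩ := hk' x (mem_univ x)
        refine ⟨W, hW, fun σ hσ => ?_⟩
        have h2 : s 1 σ - theta c 1 σ - sdf k' 1 σ = 0 := h1 σ hσ
        rw [hs1, theta_one] at h2
        rw [TT_single]
        linear_combination h2)
    refine ⟨OO, hcov, fun z hz => ?_⟩
    have h1 : φ (hcl z) = Φ z.1 := by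
      rw [← hψ]
      rfl
    have h2 : Φ z.1 = (TT (fun a b => c [a, b]) +
        Finsupp.linearCombination (ZMod 2) (sdf k' 1)) z.1 := by
      apply lin_eq
      intro σ hσ
      obtain ⟨W, hW, hr⟩ := hz σ hσ
      rw [LinearMap.add_apply, Finsupp.linearCombination_single, one_smul]
      exact hW.2 σ hr
    have h3 : bdry M 0 z.1 = 0 := z.2
    rw [h1, h2, LinearMap.add_apply, lc_sdf, h3, map_zero, add_zero]

/-- step 3, second half -/
theorem step3b (t : M → M → ZMod 2) (ht : Coc univ t) (hR : RR t 0) : Null univ t := by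
  obtain ⟨OO, hO, h⟩ := hR
  obtain ⟨r, hr⟩ := sx_cob 1 (Finsupp.supported (ZMod 2) (ZMod 2)
    {σ : Sing M 1 | ∃ W ∈ OO, range σ ⊆ W}) (TT t) (by
      intro z hz hcyc
      have h1 := h ⟨z, hcyc⟩ (by
        intro σ hσ
        exact (Finsupp.mem_supported _ _).1 hz (by exact_mod_cast hσ))
      exact h1.symm)
  have hcob : (Sg M).Cob univ 2 (theta (ct t)) := by
    refine ⟨r, fun x _ => ?_⟩
    obtain ⟨W, hW, hx⟩ := hO.cov x
    refine ⟨W, (hO.op W hW).mem_nhds hx, fun σ hσ => ?_⟩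
    have h2 := hr σ (Finsupp.single_mem_supported _ _ ⟨W, hW, hσ⟩)
    rw [TT_theta] at h2
    exact h2
  have hcoc : (AS M).Coc univ 2 (ct t) := by
    intro z hz
    obtain ⟨W, hW, h3⟩ := ht z hz
    change dd (ct t) ∈ Nz z 3
    refine mem_Nz_of hW fun l hl hx => ?_
    match l, hl with
    | [a, b, e], _ =>
      have ha : a ∈ W := hx a (by simp)
      have hb : b ∈ W := hx b (by simp)
      have he : e ∈ W := hx e (by simp)
      rw [dd3]
      change t b e + (t a e + (t a b + 0)) = 0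
      rw [← h3 a ha b hb e he]
      generalize t a b = u
      generalize t b e = v
      revert u v
      decide
  obtain ⟨k', h2⟩ := theta_inj (m := 2) isCompact_univ hcoc hcob
  refine ⟨fun a => k' [a], fun x hx => ?_⟩
  have h3 : ct t - dd k' ∈ Nz x 2 := h2 x hx
  obtain ⟨W, hW, hxW, h4⟩ := exists_of_mem_Nz (by norm_num) h3
  refine ⟨W, hW.mem_nhds hxW, fun a ha b hb => ?_⟩
  have h5 := h4 [a, b] rfl (by
    intro y hy
    simp only [List.mem_cons, List.not_mem_nil, or_false] at hy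
    rcases hy with rfl | rfl
    · exact ha
    · exact hb)
  rw [Pi.sub_apply, dd2] at h5
  change t a b - (k' [b] + (k' [a] + 0)) = 0 at h5
  change t a b = k' [a] + k' [b]
  revert h5
  generalize t a b = u
  generalize k' [a] = w
  generalize k' [b] = w'
  revert u w w'
  decide

theorem betti_metric : betti1 M = firstBetti M := by
  have h1 := finrank_corr (CG (univ : Set M)) (NG (univ : Set M)) (RP M)
    (fun t ht => by
      obtain ⟨φ, hφ⟩ := step1 t ht
      exact ⟨φ, hφ⟩)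
    (fun φ => by
      obtain ⟨t, ht, hR⟩ := step2 φ
      exact ⟨t, ht, hR⟩)
    (fun t ht φ hR => by
      constructor
      · intro hN
        exact step3a t φ hR hN
      · intro h0
        subst h0
        exact step3b t ht hR)
  rw [Subspace.dual_finrank_eq] at h1
  exact h1

end metric

/-- **Job PB-X.** -/
theorem betti : JBetti.{u} := by
  intro M _ _ _ _ _
  have hsc : SecondCountableTopology M :=
    ChartedSpace.secondCountable_of_sigmaCompact (EuclideanSpace ℝ (Fin 2)) M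
  have hmet : TopologicalSpace.MetrizableSpace M := inferInstance
  let _ : MetricSpace M := TopologicalSpace.metrizableSpaceMetric M
  exact betti_metric

end Pool.Agent.Y447.PB
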